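import Pool.Agent.U542.CH.Max

/-!
# Compact complex subvarieties force divergence of the Poincare series at exponent 2k

Let `Γ` be a group of holomorphic automorphisms of the unit ball of `ℂ^n` (extended by the identity
outside the ball) and `k ≥ 1`.  With the Bergman metric normalised to have curvature in `[-4,-1]`
one has `exp (- 2 d(0,z)) = (1 - |z|) / (1 + |z|)`.  If the Poincare series of `Γ` converges at the
exponent `2k` itself, then no `Γ`-invariant analytic subset of the ball which is covered by the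
translates of a compact subset of the ball has a regular point of dimension `k`.
-/

set_option autoImplicit false

namespace Pool.Agent.Results.MP_283405_gt.ConvergenceType

open Metric Set Filter Topology Pool.Agent.U542.CH

section
variable {n : ℕ}

private theorem summable_aux (Γ : Subgroup (Equiv.Perm (EuclideanSpace ℂ (Fin n)))) (k : ℕ)
    (hm : ∀ γ ∈ Γ, ‖γ 0‖ < 1)
    (hsum : Summable (fun γ : Γ =>
          ((1 - ‖(γ : Equiv.Perm (EuclideanSpace ℂ (Fin n))) 0‖) /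
            (1 + ‖(γ : Equiv.Perm (EuclideanSpace ℂ (Fin n))) 0‖)) ^ k)) :
    Summable fun γ : Γ => (1 - ‖(γ : Equiv.Perm (EuclideanSpace ℂ (Fin n))) 0‖ ^ 2) ^ k := by
  refine Summable.of_nonneg_of_le ?_ ?_ (hsum.mul_left ((4 : ℝ) ^ k))
  · intro γ
    have h1 := hm γ γ.2
    exact pow_nonneg (one_sub_sq_pos h1).le k
  · intro γ
    have h1 := hm γ γ.2
    set x := ‖(γ : Equiv.Perm (EuclideanSpace ℂ (Fin n))) 0‖ with hx
    have hx0 : 0 ≤ x := norm_nonneg _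
    have h2 : 1 - x ^ 2 ≤ 4 * ((1 - x) / (1 + x)) := by
      rw [← mul_div_assoc, le_div_iff₀ (by linarith)]
      nlinarith [mul_nonneg (mul_nonneg hx0 (by linarith : 0 ≤ 1 - x)) hx0,
        mul_nonneg hx0 (by linarith : 0 ≤ 1 - x), sq_nonneg (1 - x)]
    have h3 : (1 - x ^ 2) ^ k ≤ (4 * ((1 - x) / (1 + x))) ^ k :=
      pow_le_pow_left₀ (one_sub_sq_pos h1).le h2 k
    calc (1 - x ^ 2) ^ k ≤ (4 * ((1 - x) / (1 + x))) ^ k := h3
      _ = 4 ^ k * ((1 - x) / (1 + x)) ^ k := by rw [mul_pow]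

private theorem fam (Γ : Subgroup (Equiv.Perm (EuclideanSpace ℂ (Fin n))))
    (hΓ : ∀ γ ∈ Γ,
        Set.MapsTo ⇑γ (Metric.ball (0 : EuclideanSpace ℂ (Fin n)) 1)
          (Metric.ball (0 : EuclideanSpace ℂ (Fin n)) 1) ∧
        AnalyticOnNhd ℂ ⇑γ (Metric.ball (0 : EuclideanSpace ℂ (Fin n)) 1) ∧
        (∀ z : EuclideanSpace ℂ (Fin n), 1 ≤ ‖z‖ → γ z = z)) :
    AutFam (fun γ : Γ => ⇑(γ : Equiv.Perm (EuclideanSpace ℂ (Fin n))))
      (fun γ : Γ => ⇑((γ⁻¹ : Γ) : Equiv.Perm (EuclideanSpace ℂ (Fin n)))) where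
  d γ := (hΓ γ γ.2).2.1.differentiableOn
  d' γ := (hΓ _ (γ⁻¹).2).2.1.differentiableOn
  m γ := (hΓ γ γ.2).1
  m' γ := (hΓ _ (γ⁻¹).2).1
  l γ z _ := by simp
  r γ z _ := by simp

private theorem FF_inv (Γ : Subgroup (Equiv.Perm (EuclideanSpace ℂ (Fin n)))) (k : ℕ) (γ : Γ)
    (z : EuclideanSpace ℂ (Fin n)) :
    FF (fun γ : Γ => ⇑(γ : Equiv.Perm (EuclideanSpace ℂ (Fin n)))) k
      ((γ : Equiv.Perm (EuclideanSpace ℂ (Fin n))) z) =
    FF (fun γ : Γ => ⇑(γ : Equiv.Perm (EuclideanSpace ℂ (Fin n)))) k z := by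
  unfold FF
  have := (Equiv.mulRight γ).tsum_eq (fun δ : Γ =>
    (1 - ‖(δ : Equiv.Perm (EuclideanSpace ℂ (Fin n))) z‖ ^ 2) ^ k)
  rw [← this]
  apply tsum_congr
  intro δ
  simp [Equiv.Perm.mul_apply]

private theorem fderiv_inj (γ γ' : EuclideanSpace ℂ (Fin n) → EuclideanSpace ℂ (Fin n))
    (z : EuclideanSpace ℂ (Fin n)) (h : AnalyticAt ℂ γ z) (h' : AnalyticAt ℂ γ' (γ z))
    (hi : ∀ x, γ' (γ x) = x) : Function.Injective (fderiv ℂ γ z) := by
  have h1 : HasFDerivAt (fun z => γ' (γ z)) ((fderiv ℂ γ' (γ z)).comp (fderiv ℂ γ z)) z :=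
    (h'.differentiableAt.hasFDerivAt).comp z h.differentiableAt.hasFDerivAt
  have h2 : HasFDerivAt (fun z => γ' (γ z)) (ContinuousLinearMap.id ℂ _) z := by
    have : (fun z => γ' (γ z)) = id := funext hi
    rw [this]; exact hasFDerivAt_id z
  have h3 := h1.unique h2
  intro x y hxy
  have h4 : (fderiv ℂ γ' (γ z)).comp (fderiv ℂ γ z) x =
      (fderiv ℂ γ' (γ z)).comp (fderiv ℂ γ z) y := by
    simp only [ContinuousLinearMap.comp_apply, hxy]
  rw [h3] at h4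
  simpa using h4

private theorem InN_inv (γ γ' : EuclideanSpace ℂ (Fin n) → EuclideanSpace ℂ (Fin n))
    (hi : ∀ x, γ' (γ x) = x) {Z : Set (EuclideanSpace ℂ (Fin n))} {k : ℕ}
    {z : EuclideanSpace ℂ (Fin n)} (h : AnalyticAt ℂ γ z) (h' : AnalyticAt ℂ γ' (γ z))
    (hZ : Set.MapsTo γ Z Z) (hN : InN Z k z) : InN Z k (γ z) := by
  obtain ⟨S, σ, hk, hσ, hσ0, hinj, hσZ⟩ := hN
  have hγσ : AnalyticAt ℂ γ (σ 0) := by rw [hσ0]; exact h
  refine ⟨S, fun w => γ (σ w), hk, hγσ.comp hσ, by simp [hσ0], ?_, ?_⟩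
  · have h1 : HasFDerivAt (fun w => γ (σ w)) ((fderiv ℂ γ (σ 0)).comp (fderiv ℂ σ 0)) 0 :=
      (hγσ.differentiableAt.hasFDerivAt).comp 0 hσ.differentiableAt.hasFDerivAt
    rw [h1.fderiv, hσ0]
    intro x y hxy
    exact hinj (fderiv_inj γ γ' z h h' hi hxy)
  · filter_upwards [hσZ] with w hw hwS
    exact hZ (hw hwS)

private theorem InN_of_regular {Z : Set (EuclideanSpace ℂ (Fin n))} {k : ℕ}
    {p : EuclideanSpace ℂ (Fin n)} (hp : p ∈ Z) {U : Set (EuclideanSpace ℂ (Fin n))}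
    (hU : IsOpen U) (hpU : p ∈ U) {φ : EuclideanSpace ℂ (Fin n) → EuclideanSpace ℂ (Fin n)}
    (hφ : AnalyticOnNhd ℂ φ U) (hb : ∀ x ∈ U, Function.Bijective (fderiv ℂ φ x))
    {W : Submodule ℂ (EuclideanSpace ℂ (Fin n))} (hW : Module.finrank ℂ W = k)
    (hZ : Z ∩ U = U ∩ φ ⁻¹' (W : Set (EuclideanSpace ℂ (Fin n)))) : InN Z k p := by
  obtain ⟨ψ, hψ, hψ0, hψr, hψi⟩ := inv_exists φ p (hφ p hpU) (hb p hpU).1
  have hadd : AnalyticAt ℂ (fun w : EuclideanSpace ℂ (Fin n) => φ p + w) 0 :=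
    analyticAt_const.add analyticAt_id
  have hψ' : AnalyticAt ℂ ψ ((fun w : EuclideanSpace ℂ (Fin n) => φ p + w) 0) := by
    simpa using hψ
  have hφp : φ p ∈ W := by
    have : p ∈ Z ∩ U := ⟨hp, hpU⟩
    rw [hZ] at this
    exact this.2
  have ht : Tendsto (fun w : EuclideanSpace ℂ (Fin n) => φ p + w) (𝓝 0) (𝓝 (φ p)) := by
    have := hadd.continuousAt
    simpa [ContinuousAt] using this
  refine ⟨W, fun w => ψ (φ p + w), hW.ge,
    AnalyticAt.comp (g := ψ) (f := fun w => φ p + w) (x := 0) hψ' hadd, by simp [hψ0], ?_, ?_⟩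
  · have : fderiv ℂ (fun w => ψ (φ p + w)) 0 = fderiv ℂ ψ (φ p) := by
      rw [fderiv_comp_add_left]; simp
    rw [this]; exact hψi
  · have h1 : ∀ᶠ x in 𝓝 (φ p), ψ x ∈ U := by
      apply hψ.continuousAt.eventually
      rw [hψ0]; exact hU.mem_nhds hpU
    filter_upwards [ht.eventually h1, ht.eventually hψr] with w a1 a2 hw
    have : ψ (φ p + w) ∈ U ∩ φ ⁻¹' (W : Set (EuclideanSpace ℂ (Fin n))) := by
      refine ⟨a1, ?_⟩
      show φ (ψ (φ p + w)) ∈ W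
      rw [a2]
      exact W.add_mem hφp hw
    rw [← hZ] at this
    exact this.1

end

/-- If the Poincare series of a group of ball automorphisms converges at the exponent `2k` (for the
Bergman metric with curvature in `[-4,-1]`), `k ≥ 1`, then there is no invariant analytic subset of
the ball, covered by the translates of a compact set, with a regular point of dimension `k`. -/
theorem result :
    ∀ n : ℕ,
    ∀ Γ : Subgroup (Equiv.Perm (EuclideanSpace ℂ (Fin n))),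
      (∀ γ ∈ Γ,
        Set.MapsTo ⇑γ (Metric.ball (0 : EuclideanSpace ℂ (Fin n)) 1)
          (Metric.ball (0 : EuclideanSpace ℂ (Fin n)) 1) ∧
        AnalyticOnNhd ℂ ⇑γ (Metric.ball (0 : EuclideanSpace ℂ (Fin n)) 1) ∧
        (∀ z : EuclideanSpace ℂ (Fin n), 1 ≤ ‖z‖ → γ z = z)) →
    ∀ k : ℕ, 1 ≤ k →
      Summable (fun γ : Γ =>
          ((1 - ‖(γ : Equiv.Perm (EuclideanSpace ℂ (Fin n))) 0‖) /
            (1 + ‖(γ : Equiv.Perm (EuclideanSpace ℂ (Fin n))) 0‖)) ^ k) →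
      ¬ ∃ Z : Set (EuclideanSpace ℂ (Fin n)),
        Z ⊆ Metric.ball (0 : EuclideanSpace ℂ (Fin n)) 1 ∧
        (∀ p ∈ Metric.ball (0 : EuclideanSpace ℂ (Fin n)) 1,
          ∃ U : Set (EuclideanSpace ℂ (Fin n)), IsOpen U ∧ p ∈ U ∧
          ∃ N : ℕ, ∃ f : Fin N → EuclideanSpace ℂ (Fin n) → ℂ,
            (∀ i, AnalyticOnNhd ℂ (f i) U) ∧
            Z ∩ U = {z | z ∈ U ∧ ∀ i, f i z = 0}) ∧
        (∀ γ ∈ Γ, Set.MapsTo ⇑γ Z Z) ∧
        (∃ K : Set (EuclideanSpace ℂ (Fin n)), IsCompact K ∧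
          K ⊆ Metric.ball (0 : EuclideanSpace ℂ (Fin n)) 1 ∧
          Z ⊆ ⋃ γ ∈ Γ, ⇑γ '' K) ∧
        (∃ p ∈ Z, ∃ U : Set (EuclideanSpace ℂ (Fin n)), IsOpen U ∧ p ∈ U ∧
          ∃ φ : EuclideanSpace ℂ (Fin n) → EuclideanSpace ℂ (Fin n),
            AnalyticOnNhd ℂ φ U ∧ Set.InjOn φ U ∧
            (∀ x ∈ U, Function.Bijective (fderiv ℂ φ x)) ∧
            ∃ W : Submodule ℂ (EuclideanSpace ℂ (Fin n)),
              Module.finrank ℂ W = k ∧ Z ∩ U = U ∩ φ ⁻¹' (W : Set (EuclideanSpace ℂ (Fin n)))) := by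
  intro n Γ hΓ k hkpos hsum hZex
  obtain ⟨Z, hZb, hZan, hZΓ, ⟨K, hKc, hKb, hZK⟩, ⟨p, hpZ, U0, hU0, hpU0, φ, hφ, -, hφb, W, hW, hZW⟩⟩ :=
    hZex
  set β : Γ → EuclideanSpace ℂ (Fin n) → EuclideanSpace ℂ (Fin n) :=
    fun γ => ⇑(γ : Equiv.Perm (EuclideanSpace ℂ (Fin n))) with hβ
  set β' : Γ → EuclideanSpace ℂ (Fin n) → EuclideanSpace ℂ (Fin n) :=
    fun γ => ⇑((γ⁻¹ : Γ) : Equiv.Perm (EuclideanSpace ℂ (Fin n))) with hβ'
  have hfam : AutFam β β' := fam Γ hΓ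
  have hsumk : Summable fun γ => (1 - ‖β γ 0‖ ^ 2) ^ k := by
    apply summable_aux Γ k _ hsum
    intro γ hγ
    have := (hΓ γ hγ).1 (show (0 : EuclideanSpace ℂ (Fin n)) ∈ ball 0 1 by simp)
    simpa using this
  set F : EuclideanSpace ℂ (Fin n) → ℝ := FF β k with hF
  have hFc : ContinuousOn F (ball 0 1) := FF_cont hfam hsumk
  have hFinv : ∀ (γ : Γ) z, F (β γ z) = F z := fun γ z => FF_inv Γ k γ z
  set N : Set (EuclideanSpace ℂ (Fin n)) := {z | InN Z k z} with hN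
  have hNZ : N ⊆ Z := fun z hz => InN.mem hz
  have hNb : N ⊆ ball 0 1 := hNZ.trans hZb
  have hNinv : ∀ (γ : Γ) z, z ∈ N → β γ z ∈ N := by
    intro γ z hz
    have hzb := hNb hz
    have hγz : β γ z ∈ ball (0 : EuclideanSpace ℂ (Fin n)) 1 := hfam.m γ hzb
    exact InN_inv (β γ) (β' γ) (fun x => by simp [hβ, hβ']) ((hΓ γ γ.2).2.1 z hzb)
      ((hΓ _ (γ⁻¹).2).2.1 _ hγz) (hZΓ γ γ.2) hz
  have hpN : p ∈ N := InN_of_regular hpZ hU0 hpU0 hφ hφb hW hZW
  -- representatives in `K`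
  have hrep : ∀ z ∈ N, ∃ κ ∈ N ∩ K, F κ = F z := by
    intro z hz
    have h1 := hZK (hNZ hz)
    simp only [mem_iUnion, exists_prop] at h1
    obtain ⟨γ, hγ, κ, hκK, hκz⟩ := h1
    have h2 : β' ⟨γ, hγ⟩ z = κ := by
      simp only [hβ']
      rw [← hκz]
      simp
    have h3 : β' (⟨γ, hγ⟩ : Γ) = β (⟨γ, hγ⟩ : Γ)⁻¹ := rfl
    refine ⟨κ, ⟨?_, hκK⟩, ?_⟩
    · rw [← h2, h3]; exact hNinv _ z hz
    · rw [← h2, h3]; exact hFinv _ z
  -- the minimum
  have hCc : IsCompact (closure N ∩ K) := hKc.inter_left isClosed_closure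
  have hCne : (closure N ∩ K).Nonempty := by
    obtain ⟨κ, hκ, -⟩ := hrep p hpN
    exact ⟨κ, subset_closure hκ.1, hκ.2⟩
  obtain ⟨y, hyC, hymin⟩ := hCc.exists_isMinOn hCne
    (hFc.mono (fun z hz => hKb hz.2))
  have hyb : y ∈ ball (0 : EuclideanSpace ℂ (Fin n)) 1 := hKb hyC.2
  have hFy : ∀ z ∈ N, F y ≤ F z := by
    intro z hz
    obtain ⟨κ, hκ, hκz⟩ := hrep z hz
    rw [← hκz]
    exact hymin ⟨subset_closure hκ.1, hκ.2⟩
  have hFy' : ∀ z ∈ closure N, z ∈ ball (0 : EuclideanSpace ℂ (Fin n)) 1 → F y ≤ F z := by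
    intro z hz hzb
    by_contra hlt
    push Not at hlt
    have h1 : ∀ᶠ x in 𝓝 z, F x < F y :=
      (hFc.continuousAt (isOpen_ball.mem_nhds hzb)).eventually_lt continuousAt_const hlt
    obtain ⟨x, hxN, hx⟩ := ((mem_closure_iff_frequently.1 hz).and_eventually h1).exists
    exact absurd (hFy x hxN) (not_le.2 hx)
  -- local data at `y`
  obtain ⟨U, hU, hyU, q, f, hf, hfZ⟩ := hZan y hyb
  have hyn : ‖y‖ < 1 := by simpa using hyb
  obtain ⟨R, hyR, hR1⟩ := exists_between hyn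
  have hR0 : 0 ≤ R := (norm_nonneg y).trans hyR.le
  obtain ⟨r, hr, hrsub⟩ : ∃ r > 0, closedBall y r ⊆ U ∩ ball 0 R := by
    have : U ∩ ball (0 : EuclideanSpace ℂ (Fin n)) R ∈ 𝓝 y :=
      inter_mem (hU.mem_nhds hyU) (isOpen_ball.mem_nhds (by simpa using hyR))
    exact Metric.nhds_basis_closedBall.mem_iff.1 this
  have hsub1 : closedBall y r ⊆ ball (0 : EuclideanSpace ℂ (Fin n)) 1 := fun z hz =>
    ball_subset_ball hR1.le (hrsub hz).2
  have hRp : 0 < 1 - R ^ 2 := by nlinarith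
  have hkR : (0 : ℝ) < k := by exact_mod_cast hkpos
  set ε : ℝ := k * (1 - R ^ 2) ^ (k + 1) / 8 with hε
  have hε0 : 0 < ε := by rw [hε]; positivity
  have hεz : ∀ z ∈ closedBall y r, 4 * ε < k * (1 - ‖z‖ ^ 2) ^ (k + 1) := by
    intro z hz
    have hzR : ‖z‖ < R := by simpa using (hrsub hz).2
    have h1 : 1 - R ^ 2 ≤ 1 - ‖z‖ ^ 2 := by have := norm_nonneg z; nlinarith
    have h2 : (1 - R ^ 2) ^ (k + 1) ≤ (1 - ‖z‖ ^ 2) ^ (k + 1) := pow_le_pow_left₀ hRp.le h1 _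
    have h3 : 0 < k * (1 - R ^ 2) ^ (k + 1) := by positivity
    have h4 : k * (1 - R ^ 2) ^ (k + 1) ≤ k * (1 - ‖z‖ ^ 2) ^ (k + 1) :=
      mul_le_mul_of_nonneg_left h2 hkR.le
    rw [hε]; linarith
  set F' : EuclideanSpace ℂ (Fin n) → ℝ := fun z => F z + ε * ‖z - y‖ ^ 2 with hF'
  have hF'c : ContinuousOn F' (ball 0 1) :=
    hFc.add (Continuous.continuousOn (by fun_prop))
  set c : ℝ := F y + ε * r ^ 2 with hc
  set V : Set (EuclideanSpace ℂ (Fin n)) := ball y r ∩ F' ⁻¹' (Iio c) with hV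
  have hVo : IsOpen V :=
    (hF'c.mono (ball_subset_closedBall.trans hsub1)).isOpen_inter_preimage isOpen_ball isOpen_Iio
  have hVU : V ⊆ U := fun z hz => (hrsub (ball_subset_closedBall hz.1)).1
  have hyV : y ∈ V := by
    refine ⟨mem_ball_self hr, ?_⟩
    show F y + ε * ‖y - y‖ ^ 2 < c
    rw [sub_self, norm_zero, hc]
    have : 0 < ε * r ^ 2 := by positivity
    simp only [ne_eq, OfNat.ofNat_ne_zero, not_false_eq_true, zero_pow, mul_zero, add_zero]
    linarith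
  have hNV : ∃ z ∈ V, InN Z k z := by
    obtain ⟨z, hz1, hz2⟩ := mem_closure_iff.1 hyC.1 V hVo hyV
    exact ⟨z, hz1, hz2⟩
  obtain ⟨D, hDan, ⟨z0, hz0V, hz0N, hDz0⟩, hgood⟩ := good_function Z k V hVo f
    (fun i => (hf i).mono hVU) (fun z hz => by
      have h1 : z ∈ Z ∩ U ↔ z ∈ {z | z ∈ U ∧ ∀ i, f i z = 0} := by rw [hfZ]
      simp only [mem_inter_iff, Set.mem_setOf_eq, hVU hz, and_true, true_and] at h1
      exact h1.symm) hNV
  -- the compact set
  obtain ⟨c', hc'0, hc'1⟩ : ∃ c', F' z0 < c' ∧ c' < c := exists_between hz0V.2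
  set K' : Set (EuclideanSpace ℂ (Fin n)) := closure N ∩ (closedBall y r ∩ F' ⁻¹' (Iic c')) with hK'
  have hK'c : IsCompact K' := by
    apply IsCompact.inter_left _ isClosed_closure
    apply IsCompact.of_isClosed_subset (isCompact_closedBall y r) _ inter_subset_left
    exact (hF'c.mono hsub1).preimage_isClosed_of_isClosed isClosed_closedBall isClosed_Iic
  have hK'V : K' ⊆ V := by
    rintro z ⟨hz1, hz2, hz3⟩
    have hz3' : F' z ≤ c' := hz3
    refine ⟨?_, lt_of_le_of_lt hz3' hc'1⟩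
    rw [mem_ball]
    apply lt_of_le_of_ne (mem_closedBall.1 hz2)
    intro heq
    have h1 := hFy' z hz1 (hsub1 hz2)
    have h2 : F' z = F z + ε * r ^ 2 := by
      simp only [hF']
      rw [← dist_eq_norm, heq]
    rw [h2] at hz3'
    rw [hc] at hc'1
    linarith
  have hz0K' : z0 ∈ K' := ⟨subset_closure hz0N, ball_subset_closedBall hz0V.1, hc'0.le⟩
  have hDc : ContinuousOn D K' := fun z hz => (hDan z (hK'V hz)).continuousAt.continuousWithinAt
  obtain ⟨M, hM⟩ := hK'c.exists_bound_of_continuousOn hDc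
  have hDz0n : 0 < ‖D z0‖ := norm_pos_iff.2 hDz0
  have hM0 : 0 ≤ M := (norm_nonneg _).trans (hM z0 hz0K')
  set lam : ℝ := (M / ‖D z0‖ + 1) / (c' - F' z0) with hlam
  have hcp : 0 < c' - F' z0 := by linarith
  have hlam0 : 0 < lam := by rw [hlam]; positivity
  have hkey : M * Real.exp (-(lam * c')) < ‖D z0‖ * Real.exp (-(lam * F' z0)) := by
    have h1 : M / ‖D z0‖ < Real.exp (lam * (c' - F' z0)) := by
      have h2 : lam * (c' - F' z0) = M / ‖D z0‖ + 1 := by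
        rw [hlam]; field_simp
      rw [h2]
      have := Real.add_one_le_exp (M / ‖D z0‖ + 1)
      linarith
    rw [div_lt_iff₀ hDz0n] at h1
    have h3 : Real.exp (-(lam * F' z0)) = Real.exp (lam * (c' - F' z0)) * Real.exp (-(lam * c')) := by
      rw [← Real.exp_add]; congr 1; ring
    rw [h3]
    have h4 := mul_lt_mul_of_pos_right h1 (Real.exp_pos (-(lam * c')))
    calc M * Real.exp (-(lam * c')) < _ := h4
      _ = _ := by ring
  set H : EuclideanSpace ℂ (Fin n) → ℝ := fun z => ‖D z‖ * Real.exp (-(lam * F' z)) with hH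
  have hHc : ContinuousOn H K' := by
    apply hDc.norm.mul
    apply Real.continuous_exp.comp_continuousOn
    exact ((hF'c.mono (hK'V.trans (fun z hz => hsub1 (ball_subset_closedBall hz.1)))).const_mul
      lam |>.congr (fun z _ => rfl)).neg
  obtain ⟨zs, hzsK, hzsmax⟩ := hK'c.exists_isMaxOn ⟨z0, hz0K'⟩ hHc
  have hmax0 : H z0 ≤ H zs := hzsmax hz0K'
  have hH0 : 0 < H z0 := by simp only [hH]; positivity
  have hDzs : D zs ≠ 0 := by
    intro h0
    have : H zs = 0 := by simp only [hH, h0, norm_zero, zero_mul]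
    linarith
  have hzsV := hK'V hzsK
  have hzsc : F' zs < c' := by
    have h1 : F' zs ≤ c' := hzsK.2.2
    apply lt_of_le_of_ne h1
    intro heq
    have h2 : H zs ≤ M * Real.exp (-(lam * c')) := by
      simp only [hH, heq]
      exact mul_le_mul_of_nonneg_right (hM zs hzsK) (Real.exp_pos _).le
    have h3 : H z0 = ‖D z0‖ * Real.exp (-(lam * F' z0)) := rfl
    linarith
  have hzsN : InN Z k zs := hgood zs hzsV hzsK.1 hDzs
  have hzsn : ‖zs‖ < 1 := by simpa using hsub1 (ball_subset_closedBall hzsV.1)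
  refine local_contra hfam hkpos hsumk 1 (fun z _ => by simp [hβ]) hzsn hzsN (hDan zs hzsV) hDzs
    hε0.le (hεz zs (ball_subset_closedBall hzsV.1)) hlam0 (y := y) ?_
  have hev : ∀ᶠ z in 𝓝 zs, F' z < c' ∧ z ∈ ball y r := by
    have h1 : ContinuousAt F' zs := hF'c.continuousAt (isOpen_ball.mem_nhds (by simpa using hzsn))
    exact (h1.eventually_lt continuousAt_const hzsc).and (isOpen_ball.mem_nhds hzsV.1)
  filter_upwards [hev] with z hz hzN
  have hzK' : z ∈ K' := ⟨subset_closure hzN, ball_subset_closedBall hz.2, hz.1.le⟩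
  exact hzsmax hzK'

end Pool.Agent.Results.MP_283405_gt.ConvergenceType
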